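import Mathlib

open MeasureTheory
open scoped ENNReal BigOperators

set_option autoImplicit false

namespace Pool.Agent.W988.RA

/-- the sign `±1` -/
def sg {n : ℕ} (ε : Fin n → Bool) (k : Fin n) : ℝ := if ε k then 1 else -1

/-- average over all signs -/
noncomputable def av {n : ℕ} (f : (Fin n → Bool) → ℝ) : ℝ := (∑ ε, f ε) / 2 ^ n

/-- the pairing of a sign vector with a vector -/
def dt {n : ℕ} (ε : Fin n → Bool) (x : Fin n → ℝ) : ℝ := ∑ k, sg ε k * x k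

/-- arrays; column `i` is the vector `fun k => A (k, i)` -/
abbrev AR (n m : ℕ) := Fin n × Fin m → ℝ

/-- `E_ε max_i |⟨ε, a_i⟩|`, `a_i` the columns of `A` -/
noncomputable def nrm {n m : ℕ} (A : AR n m) : ℝ :=
  av fun ε => ⨆ i : Fin m, |dt ε fun k => A (k, i)|

def KK (n m : ℕ) : Set (AR n m) := {A | nrm A ≤ 1}

/-- square matrices -/
abbrev MM (n : ℕ) := Fin n → Fin n → ℝ

def mulV {n : ℕ} (M : MM n) (x : Fin n → ℝ) : Fin n → ℝ := fun k => ∑ j, M k j * x j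

/-- the vectors `e_j` and the columns of `V` -/
def wv {n m : ℕ} (V : AR n m) : Fin n ⊕ Fin m → Fin n → ℝ
  | Sum.inl j => Pi.single j 1
  | Sum.inr i => fun k => V (k, i)

/-- `E_ε max_i |⟨ε, M w_i⟩|` -/
noncomputable def RV {n m : ℕ} (V : AR n m) (M : MM n) : ℝ :=
  av fun ε => ⨆ i : Fin n ⊕ Fin m, |dt ε (mulV M (wv V i))|

/-- absolute value of the determinant -/
noncomputable def dtm {n : ℕ} (M : MM n) : ℝ := |Matrix.det (Matrix.of M)|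

noncomputable def Ph {n m : ℕ} (V : AR n m) : ℝ≥0∞ :=
  ∫⁻ M in {M : MM n | RV V M ≤ 2}, ENNReal.ofReal (dtm M ^ m)

/-- the cube -/
def QQ (n m : ℕ) (a : ℝ) : Set (AR n m) := {V | ∀ p, |V p| ≤ a}

/-- the polar body -/
def PV {n m : ℕ} (V : AR n m) : Set (Fin n → ℝ) := {y | ∀ i, |∑ k, y k * wv V i k| ≤ 1}

/-- the norm whose unit ball is the convex hull of the `± w_i` -/
noncomputable def NV {n m : ℕ} (V : AR n m) (x : Fin n → ℝ) : ℝ :=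
  sSup ((fun y : Fin n → ℝ => ∑ k, x k * y k) '' PV V)

/-- sum of Riesz products -/
noncomputable def ZZ {n m : ℕ} (H : AR n m) (ε : Fin n → Bool) : ℝ :=
  ∑ i : Fin m, ∏ k, (1 + H (k, i) * sg ε k)

/-- fraction of the signs with `Z > 2m` -/
noncomputable def frac {n m : ℕ} (H : AR n m) : ℝ :=
  av fun ε => if 2 * (m : ℝ) < ZZ H ε then (1 : ℝ) else 0

/-- fourth moment of a Rademacher sum -/
def S_M4 : Prop := ∀ (n : ℕ) (x : Fin n → ℝ),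
  av (fun ε => (dt ε x) ^ 4) ≤ 3 * (∑ k, x k ^ 2) ^ 2

/-- Khintchine with constant `√3` -/
def S_KH : Prop := ∀ (n : ℕ) (x : Fin n → ℝ),
  ∑ k, x k ^ 2 ≤ 3 * (av fun ε => |dt ε x|) ^ 2

/-- Riesz products -/
def S_RZ : Prop := ∀ (n : ℕ) (h a : Fin n → ℝ),
  av (fun ε => (∏ k, (1 + h k * sg ε k)) * dt ε a) = ∑ k, h k * a k ∧
  av (fun ε => (∏ k, (1 + h k * sg ε k)) ^ 2) = ∏ k, (1 + h k ^ 2)

/-- the main duality estimate -/
def S_TAIL : Prop := ∀ (n m : ℕ) (L : ℝ) (H : AR n m), 0 < n → 0 < m → 0 ≤ L → L ^ 2 ≤ n →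
  (∀ p, |H p| ≤ L / Real.sqrt n) → 27 * Real.exp (2 * L ^ 2) * frac H ≤ 1 →
  ∀ A ∈ KK n m, ∑ p, H p * A p ≤ 3 * m

/-- half of the arrays in the cube are good -/
def S_GOOD : Prop := ∀ (n m : ℕ) (L : ℝ), 0 < n → 0 < m → 0 < L → L ^ 2 ≤ n →
  54 * Real.exp (3 * L ^ 2) ≤ m →
  ENNReal.ofReal (1 / 2 * (2 * L / Real.sqrt n) ^ (n * m)) ≤
    volume {H : AR n m | (∀ p, |H p| ≤ L / Real.sqrt n) ∧
      27 * Real.exp (2 * L ^ 2) * frac H ≤ 1}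

/-- the set `KK` is compact -/
def S_KC : Prop := ∀ (n m : ℕ), 0 < n → 0 < m → IsCompact (KK n m)

/-- volume of `KK` -/
def S_VK : Prop := ∀ (n m : ℕ) (L : ℝ), 0 < n → 0 < m → 0 < L → L ^ 2 ≤ n →
  54 * Real.exp (3 * L ^ 2) ≤ m →
  volume (KK n m) ≤ ENNReal.ofReal
    (2 * (3 * Real.pi * Real.exp 1 / (L * Real.sqrt n)) ^ (n * m))

/-- change of variables -/
def S_DET : Prop := ∀ (n m : ℕ) (M : MM n) (B : Set (AR n m)), 0 < m → MeasurableSet B →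
  ENNReal.ofReal (dtm M ^ m) *
    volume {V : AR n m | (fun p : Fin n × Fin m => mulV M (fun j => V (j, p.2)) p.1) ∈ B}
    ≤ volume B

/-- Jensen for the determinant -/
def S_SYM : Prop := ∀ (n m : ℕ) (S : Set (MM n)), 0 < m → MeasurableSet S →
  (∀ σ : Fin n → Bool, ∀ D ∈ S, (fun k j => sg σ k * D k j) ∈ S) →
  ∀ M0 : MM n, ENNReal.ofReal (dtm M0 ^ m) * volume S ≤
    ∫⁻ D in S, ENNReal.ofReal (dtm (M0 + D) ^ m)

/-- most matrices with small entries have `RV ≤ 1` -/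
def S_CUBE : Prop := ∀ (n m : ℕ) (V : AR n m) (s : ℝ), 0 < n → (∀ p, |V p| ≤ 1 / Real.sqrt n) →
  0 < s → 8 * s ^ 2 * n * Real.log (2 * ((n : ℝ) + m)) ≤ 1 →
  ENNReal.ofReal (1 / 2 * (2 * s) ^ (n * n)) ≤
    volume {D : MM n | (∀ k j, |D k j| ≤ s) ∧ RV V D ≤ 1}

/-- volume of a ball of radius `√(12 n)` in dimension `n²` -/
def S_BALL : Prop := ∀ (n : ℕ), 0 < n →
  volume {M : MM n | ∑ k, ∑ j, M k j ^ 2 ≤ 12 * n} ≤
    ENNReal.ofReal (Real.sqrt (24 * Real.pi * Real.exp 1 / n) ^ (n * n))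

/-- continuity of `(V, M) ↦ RV V M` and of `nrm`, triangle inequality, homogeneity, symmetry -/
def S_RVP : Prop :=
  (∀ n m : ℕ, Continuous (fun q : AR n m × MM n => RV q.1 q.2)) ∧
  (∀ n m : ℕ, Continuous (nrm : AR n m → ℝ)) ∧
  (∀ (n m : ℕ) (V : AR n m) (M M' : MM n), RV V (M + M') ≤ RV V M + RV V M') ∧
  (∀ (n m : ℕ) (V : AR n m) (M : MM n) (c : ℝ), RV V (c • M) = |c| * RV V M) ∧
  (∀ (n m : ℕ) (V : AR n m) (M : MM n) (σ : Fin n → Bool),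
    RV V (fun k j => sg σ k * M k j) = RV V M) ∧
  (∀ (n m : ℕ) (A : AR n m) (c : ℝ), nrm (c • A) = |c| * nrm A) ∧
  (∀ (n m : ℕ) (A : AR n m) (i : Fin m), av (fun ε => |dt ε fun k => A (k, i)|) ≤ nrm A) ∧
  (∀ (n m : ℕ) (V : AR n m) (M : MM n) (i : Fin n ⊕ Fin m),
    av (fun ε => |dt ε (mulV M (wv V i))|) ≤ RV V M) ∧
  (∀ (n m : ℕ) (V : AR n m) (M : MM n),
    nrm (fun p : Fin n × Fin m => mulV M (fun j => V (j, p.2)) p.1) ≤ RV V M)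

/-- the integral of `Ph` -/
def S_PHI : Prop := ∀ (n m : ℕ), 0 < n → 0 < m →
  ∫⁻ V : AR n m, Ph V ≤ volume {M : MM n | ∑ k, ∑ j, M k j ^ 2 ≤ 12 * n} *
    (ENNReal.ofReal (2 ^ (n * m)) * volume (KK n m))

/-- a bad array has large `Ph` -/
def S_BAD : Prop := ∀ (n m : ℕ) (V : AR n m) (s : ℝ), 0 < n → 0 < m →
  (∀ p, |V p| ≤ 1 / Real.sqrt n) → 0 < s → 8 * s ^ 2 * n * Real.log (2 * ((n : ℝ) + m)) ≤ 1 →
  ∀ M0 : MM n, RV V M0 ≤ 1 →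
    ENNReal.ofReal (dtm M0 ^ m * (1 / 2 * (2 * s) ^ (n * n))) ≤ Ph V

/-- mean volume of the polar body -/
def S_PVV : Prop := ∀ (n m : ℕ), 0 < n →
  ENNReal.ofReal (2 ^ n * (2 / 3) ^ m * (2 / Real.sqrt n) ^ (n * m)) ≤
    ∫⁻ V in QQ n m (1 / Real.sqrt n), volume (PV V)

/-- the numbers -/
def S_NUM : Prop := ∀ θ : ℝ, 0 < θ → ∃ (n : ℕ) (L s : ℝ), 0 < n ∧ 0 < L ∧ 0 < s ∧
  L ^ 2 ≤ n ∧ 54 * Real.exp (3 * L ^ 2) ≤ 2 * (n : ℝ) ∧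
  8 * s ^ 2 * n * Real.log (6 * (n : ℝ)) ≤ 1 ∧
  Real.sqrt (24 * Real.pi * Real.exp 1 / n) ^ (n * n) * (2 ^ (n * (2 * n)) *
    (2 * (3 * Real.pi * Real.exp 1 / (L * Real.sqrt n)) ^ (n * (2 * n)))) <
  1 / 2 * (4 / 9) ^ n * (2 / Real.sqrt n) ^ (n * (2 * n)) *
    (θ ^ (n * (2 * n)) * (1 / 2 * (2 * s) ^ (n * n)))

/-- selection of the array -/
def S_SEL : Prop := ∀ θ : ℝ, 0 < θ → ∃ (n : ℕ) (V : AR n (2 * n)), 0 < n ∧
  (∀ p, |V p| ≤ 1 / Real.sqrt n) ∧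
  ENNReal.ofReal (1 / 2 * (8 / 9) ^ n) ≤ volume (PV V) ∧
  ∀ M : MM n, RV V M ≤ 1 → dtm M ≤ θ ^ n

/-- volume of a unit ball and the average of the norm over the vertices of a cube -/
def S_HOL : Prop := ∀ (n : ℕ) (g : (Fin n → ℝ) → ℝ), 0 < n → (∀ x, g x = 0 → x = 0) →
  (∀ (c : ℝ) (x : Fin n → ℝ), g (c • x) = |c| * g x) → (∀ x y, g (x + y) ≤ g x + g y) →
  ENNReal.ofReal ((2 / av fun ε : Fin n → Bool => g (sg ε)) ^ n) ≤ volume {z | g z < 1}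

/-- the norm `NV` -/
def S_NVP : Prop := ∀ (n m : ℕ) (V : AR n m), 0 < n → (∀ p, |V p| ≤ 1 / Real.sqrt n) →
  (∀ x, Real.sqrt (∑ k, x k ^ 2) ≤ NV V x) ∧
  (∀ (c : ℝ) (x : Fin n → ℝ), NV V (c • x) = |c| * NV V x) ∧
  (∀ x y, NV V (x + y) ≤ NV V x + NV V y) ∧
  (∀ i, NV V (wv V i) ≤ 1) ∧
  volume {x | NV V x < 1} * volume (PV V) ≤
    ENNReal.ofReal ((2 * Real.pi * Real.exp 1 / n) ^ n)

/-- linear algebra: `M` is the matrix of `u⁻¹` in the basis `η`, `E` the matrix of `u ∘ [e]` -/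
def S_LA : Prop := ∀ (n : ℕ)
  (u : EuclideanSpace ℝ (Fin n) ≃ₗ[ℝ] EuclideanSpace ℝ (Fin n))
  (e η : OrthonormalBasis (Fin n) ℝ (EuclideanSpace ℝ (Fin n))),
  dtm (fun k j : Fin n => inner ℝ (η k) (u.symm (EuclideanSpace.single j (1 : ℝ)))) *
    dtm (fun k j : Fin n => (u (e j)) k) = 1

/-- the frozen statement S04938 -/
def S_FIN : Prop := ¬ (∃ C : ℝ, ∀ (n : ℕ) (N : EuclideanSpace ℝ (Fin n) → ℝ),
    (∀ x, N x = 0 → x = 0) →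
    (∀ (c : ℝ) (x : EuclideanSpace ℝ (Fin n)), N (c • x) = |c| * N x) →
    (∀ x y, N (x + y) ≤ N x + N y) →
    ∃ (u : EuclideanSpace ℝ (Fin n) ≃ₗ[ℝ] EuclideanSpace ℝ (Fin n))
      (e η : OrthonormalBasis (Fin n) ℝ (EuclideanSpace ℝ (Fin n))),
      ((∑ ε : Fin n → Bool,
          N (∑ i, (if ε i then (1:ℝ) else -1) • u (e i))) / 2 ^ n) *
      ((∑ ε : Fin n → Bool,
          sSup ((fun x : EuclideanSpace ℝ (Fin n) =>
              |inner ℝ (∑ i, (if ε i then (1:ℝ) else -1) • η i) (u.symm x)|)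
            '' {x | N x ≤ 1})) / 2 ^ n)
      ≤ C * (n : ℝ))

end Pool.Agent.W988.RA
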